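import Pool.Agent.Helper38_Coxeter.Semi

set_option autoImplicit false

/-!
# MP_af48a1_al, Q1: a full positive answer

For every Coxeter system `(W,S)` (of any rank, finite or infinite) and every `W`-conjugacy class `K`
of twisted involutions in `W⁺ = W ⋊ Aut(W,S)`: if `ℓ(rwr) = ℓ(w)` implies `rwr = w` for all
reflections `r` and all `w ∈ K`, then `ℓ(rwr) < ℓ(w)` implies `rwr < w` in the Bruhat order.
-/

namespace Pool.Agent.Results.MP_af48a1_al.StrongExchange

open Pool.Agent.Helper38_Coxeter

universe u v

/-- Property (QP1) implies the strong exchange property for every `W`-conjugacy class of twisted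
involutions of every Coxeter system. -/
theorem result {B : Type u} {W : Type v} [Group W] {M : CoxeterMatrix B} (cs : CoxeterSystem M W)
    (K : Set (WPlus cs)) (hK : IsWConjClass cs K)
    (hQP : ∀ r, cs.IsReflection r → ∀ w ∈ K,
      lenPlus cs (incl cs r * w * incl cs r) = lenPlus cs w → incl cs r * w * incl cs r = w) :
    ∀ r, cs.IsReflection r → ∀ w ∈ K,
      lenPlus cs (incl cs r * w * incl cs r) < lenPlus cs w →
        BruhatPlusLT cs (incl cs r * w * incl cs r) w :=
  fun r hr w hw hlt => strong_exchange cs K hK hQP r hr w hw hlt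

end Pool.Agent.Results.MP_af48a1_al.StrongExchange
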